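import Pool.Agent.Hhelper93.CMono.Basic

/-!
# Drawings with c-monotone edges: the edges which avoid a ray
-/

set_option autoImplicit false

namespace Pool.Agent.CMono

open Set

/-- `S` is the arc of all points `O + ρ(s) e^{is}`, `a ≤ s ≤ b`, with `ρ > 0` continuous; it leads
from `p` (`s = a`) to `q` (`s = b`). -/
def IsCArc (O : ℂ) (S : Set ℂ) (p q : ℂ) (a b : ℝ) : Prop :=
  ∃ ρ : ℝ → ℝ, ContinuousOn ρ (Icc a b) ∧ (∀ s ∈ Icc a b, 0 < ρ s) ∧
    S = (fun s : ℝ => O + (ρ s : ℂ) * Complex.exp (s * Complex.I)) '' Icc a b ∧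
    p = O + (ρ a : ℂ) * Complex.exp (a * Complex.I) ∧
    q = O + (ρ b : ℂ) * Complex.exp (b * Complex.I)

/-- A drawing of the graph `G` in the plane with angularly monotone edges around `O`: the vertices
are drawn at the points `pos v`, each edge `e` as an arc which is seen from `O` under the angles
`lo e ≤ s ≤ hi e`, `hi e - lo e < 2π`, in each direction once; two edges with a common end have no
other common point (edges without a common end may meet any number of times). -/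
structure CMonotone {V : Type} (G : SimpleGraph V) (O : ℂ) (pos : V → ℂ)
    (arc : Sym2 V → Set ℂ) (lo hi : Sym2 V → ℝ) : Prop where
  span : ∀ e ∈ G.edgeSet, lo e < hi e ∧ hi e < lo e + 2 * Real.pi
  isArc : ∀ e ∈ G.edgeSet, ∃ u v : V, e = s(u, v) ∧ IsCArc O (arc e) (pos u) (pos v) (lo e) (hi e)
  adj : ∀ e ∈ G.edgeSet, ∀ f ∈ G.edgeSet, e ≠ f → ∀ w : V, w ∈ e → w ∈ f →
    arc e ∩ arc f ⊆ {pos w}

/-- Polar coordinates are unique in an open turn. -/
theorem polar_unique {O : ℂ} {r r' x x' : ℝ} (hr : 0 < r) (hr' : 0 < r')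
    (hx : |x - x'| < 2 * Real.pi)
    (h : O + (r : ℂ) * Complex.exp (x * Complex.I) = O + (r' : ℂ) * Complex.exp (x' * Complex.I)) :
    x = x' ∧ r = r' := by
  have h1 : (r : ℂ) * Complex.exp (x * Complex.I) = (r' : ℂ) * Complex.exp (x' * Complex.I) :=
    add_left_cancel h
  have hn := congrArg norm h1
  rw [norm_mul, norm_mul, Complex.norm_exp_ofReal_mul_I, Complex.norm_exp_ofReal_mul_I, mul_one,
    mul_one, Complex.norm_real, Complex.norm_real, Real.norm_of_nonneg hr.le,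
    Real.norm_of_nonneg hr'.le] at hn
  subst hn
  have hr0 : (r : ℂ) ≠ 0 := by exact_mod_cast hr.ne'
  have h2 := mul_left_cancel₀ hr0 h1
  rw [Complex.exp_eq_exp_iff_exists_int] at h2
  obtain ⟨n, hn⟩ := h2
  have h3 : x = x' + n * (2 * Real.pi) := by
    have h4 : (x : ℂ) * Complex.I = ((x' : ℂ) + n * (2 * Real.pi)) * Complex.I := by
      rw [hn]; ring
    have h5 := mul_right_cancel₀ Complex.I_ne_zero h4
    exact_mod_cast h5
  have h4 : |(n : ℝ)| * (2 * Real.pi) < 2 * Real.pi := by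
    have h6 : x - x' = n * (2 * Real.pi) := by rw [h3]; ring
    rw [h6, abs_mul, abs_of_pos Real.two_pi_pos] at hx
    exact hx
  have h5 : |(n : ℝ)| < 1 := by
    have := Real.two_pi_pos
    by_contra hc
    push Not at hc
    nlinarith
  have h6 : n = 0 := by
    have : |n| < 1 := by exact_mod_cast h5
    exact Int.abs_lt_one_iff.1 this
  subst h6
  exact ⟨by simpa using h3, rfl⟩

variable {V : Type} {G : SimpleGraph V} {O : ℂ} {pos : V → ℂ} {arc : Sym2 V → Set ℂ}
  {lo hi : Sym2 V → ℝ}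

/-- The edge with the angles `[lo, hi]` avoids the ray in the direction `ψ`. -/
def Av (lo hi : Sym2 V → ℝ) (ψ : ℝ) (e : Sym2 V) : Prop :=
  ∃ k : ℤ, hi e < ψ + 2 * Real.pi * k ∧ ψ + 2 * Real.pi * k < lo e + 2 * Real.pi

/-- The edges which avoid one ray. -/
theorem ray_card [DecidableEq V] (D : CMonotone G O pos arc lo hi) (t : ℕ)
    (ht : ∀ T : Finset (Sym2 V), (T : Set (Sym2 V)) ⊆ G.edgeSet → T.card = t →
      ∃ e ∈ T, ∃ f ∈ T, e ≠ f ∧ ¬ Disjoint (arc e) (arc f))
    (ψ : ℝ) (T : Finset (Sym2 V)) (hT : (T : Set (Sym2 V)) ⊆ G.edgeSet) (W : Finset V)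
    (hW : ∀ e ∈ T, ∀ w ∈ e, w ∈ W) (hav : ∀ e ∈ T, Av lo hi ψ e) :
    T.card ≤ 2 * W.card * (t - 1) ^ 4 := by
  classical
  -- choose the data
  have hdata : ∀ e : T, ∃ (u v : V) (k : ℤ) (ρ : ℝ → ℝ), (e : Sym2 V) = s(u, v) ∧
      hi e < ψ + 2 * Real.pi * k ∧ ψ + 2 * Real.pi * k < lo e + 2 * Real.pi ∧
      ContinuousOn ρ (Icc (lo e) (hi e)) ∧ (∀ s ∈ Icc (lo e) (hi e), 0 < ρ s) ∧
      arc e = (fun s : ℝ => O + (ρ s : ℂ) * Complex.exp (s * Complex.I)) '' Icc (lo e) (hi e) ∧
      pos u = O + (ρ (lo e) : ℂ) * Complex.exp (lo e * Complex.I) ∧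
      pos v = O + (ρ (hi e) : ℂ) * Complex.exp (hi e * Complex.I) := by
    intro e
    obtain ⟨u, v, huv, ρ, h1, h2, h3, h4, h5⟩ := D.isArc e (hT e.2)
    obtain ⟨k, hk1, hk2⟩ := hav e e.2
    exact ⟨u, v, k, ρ, huv, hk1, hk2, h1, h2, h3, h4, h5⟩
  choose Lf Rf k ρ huv hk1 hk2 hc hpos harc hL hR using hdata
  have hsp : ∀ e : T, lo e < hi e := fun e => (D.span e (hT e.2)).1
  -- the shift
  let sh : T → ℝ := fun e => 2 * Real.pi * ((k e : ℝ) - 1)
  have hsh1 : ∀ e : T, ψ < lo e - sh e := fun e => by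
    have := hk2 e; simp only [sh]; nlinarith
  have hsh2 : ∀ e : T, hi e - sh e < ψ + 2 * Real.pi := fun e => by
    have := hk1 e; simp only [sh]; nlinarith
  have hper : ∀ (e : T) (x : ℝ), Complex.exp (((x + sh e : ℝ) : ℂ) * Complex.I) =
      Complex.exp ((x : ℂ) * Complex.I) := by
    intro e x
    rw [Complex.exp_eq_exp_iff_exists_int]
    refine ⟨k e - 1, ?_⟩
    simp only [sh]
    push_cast
    ring
  -- angular coordinate and modulus of a vertex
  let X : V → ℝ := fun w => if h : ∃ x, ψ < x ∧ x < ψ + 2 * Real.pi ∧ ∃ r : ℝ, 0 < r ∧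
    pos w = O + (r : ℂ) * Complex.exp (x * Complex.I) then Classical.choose h else 0
  have hXspec : ∀ (w : V) (x r : ℝ), ψ < x → x < ψ + 2 * Real.pi → 0 < r →
      pos w = O + (r : ℂ) * Complex.exp (x * Complex.I) → X w = x := by
    intro w x r h1 h2 h3 h4
    have h : ∃ x, ψ < x ∧ x < ψ + 2 * Real.pi ∧ ∃ r : ℝ, 0 < r ∧
        pos w = O + (r : ℂ) * Complex.exp (x * Complex.I) := ⟨x, h1, h2, r, h3, h4⟩
    have hX : X w = Classical.choose h := by simp only [X]; rw [dif_pos h]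
    obtain ⟨g1, g2, r', g3, g4⟩ := Classical.choose_spec h
    rw [hX]
    refine (polar_unique (O := O) g3 h3 ?_ (g4.symm.trans h4)).1
    rw [abs_lt]; constructor <;> linarith
  have hXL : ∀ e : T, X (Lf e) = lo e - sh e := by
    intro e
    refine hXspec _ _ (ρ e (lo e)) (hsh1 e) (by have := hsh2 e; have := hsp e; linarith)
      (hpos e _ ⟨le_rfl, (hsp e).le⟩) ?_
    rw [hL e, ← hper e (lo e - sh e), sub_add_cancel]
  have hXR : ∀ e : T, X (Rf e) = hi e - sh e := by
    intro e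
    refine hXspec _ _ (ρ e (hi e)) (by have := hsh1 e; have := hsp e; linarith) (hsh2 e)
      (hpos e _ ⟨(hsp e).le, le_rfl⟩) ?_
    rw [hR e, ← hper e (hi e - sh e), sub_add_cancel]
  -- points of the arcs
  have hmem : ∀ (e : T) (x : ℝ), X (Lf e) ≤ x → x ≤ X (Rf e) →
      O + (ρ e (x + sh e) : ℂ) * Complex.exp (x * Complex.I) ∈ arc e := by
    intro e x h1 h2
    rw [hXL] at h1
    rw [hXR] at h2
    rw [harc e]
    refine ⟨x + sh e, ⟨by linarith, by linarith⟩, ?_⟩
    show O + (ρ e (x + sh e) : ℂ) * Complex.exp (((x + sh e : ℝ) : ℂ) * Complex.I) = _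
    rw [hper e x]
  have hin : ∀ (e : T) (x : ℝ), X (Lf e) ≤ x → x ≤ X (Rf e) → x + sh e ∈ Icc (lo e) (hi e) := by
    intro e x h1 h2
    rw [hXL] at h1
    rw [hXR] at h2
    exact ⟨by linarith, by linarith⟩
  have hrange : ∀ (e : T) (x : ℝ), X (Lf e) ≤ x → x ≤ X (Rf e) → ψ < x ∧ x < ψ + 2 * Real.pi := by
    intro e x h1 h2
    rw [hXL] at h1
    rw [hXR] at h2
    exact ⟨(hsh1 e).trans_le h1, h2.trans_lt (hsh2 e)⟩
  have hXlt : ∀ e : T, X (Lf e) < X (Rf e) := fun e => by
    rw [hXL, hXR]; have := hsp e; linarith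
  -- a common point of two curves at `x` is a common point of the arcs
  have hadj : ∀ (e f : T), e ≠ f → ∀ w, w ∈ (e : Sym2 V) → w ∈ (f : Sym2 V) → ∀ x,
      X (Lf e) ≤ x → x ≤ X (Rf e) → X (Lf f) ≤ x → x ≤ X (Rf f) →
      ρ e (x + sh e) = ρ f (x + sh f) → X w = x := by
    intro e f hef w hwe hwf x h1 h2 h3 h4 h5
    have m1 := hmem e x h1 h2
    have m2 := hmem f x h3 h4
    rw [← h5] at m2
    have := D.adj e (hT e.2) f (hT f.2) (fun h => hef (Subtype.ext h)) w hwe hwf ⟨m1, m2⟩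
    rw [mem_singleton_iff] at this
    exact hXspec w x _ (hrange e x h1 h2).1 (hrange e x h1 h2).2
      (hpos e _ (hin e x h1 h2)) this.symm
  let A : Str T V :=
    { L := Lf
      R := Rf
      X := X
      H := fun w => ‖pos w - O‖
      y := fun e x => ρ e (x + sh e)
      lt := hXlt
      cont := by
        intro e
        refine (hc e).comp (continuousOn_id.add continuousOn_const) ?_
        intro x hx
        exact hin e x hx.1 hx.2
      yL := by
        intro e
        rw [hL e, hXL e, sub_add_cancel, add_sub_cancel_left, norm_mul,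
          Complex.norm_exp_ofReal_mul_I, mul_one, Complex.norm_real,
          Real.norm_of_nonneg (hpos e _ ⟨le_rfl, (hsp e).le⟩).le]
      yR := by
        intro e
        rw [hR e, hXR e, sub_add_cancel, add_sub_cancel_left, norm_mul,
          Complex.norm_exp_ofReal_mul_I, mul_one, Complex.norm_real,
          Real.norm_of_nonneg (hpos e _ ⟨(hsp e).le, le_rfl⟩).le]
      adjL := by
        intro e f hef hLL x h1 h2 h3 h4
        have := hadj e f hef (Lf e) (by rw [huv e]; simp) (by rw [huv f, hLL]; simp) x h3.le h1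
          (hLL ▸ h3.le) h2 h4
        exact h3.ne this
      adjR := by
        intro e f hef hRR x h1 h2 h3 h4
        have := hadj e f hef (Rf e) (by rw [huv e]; simp) (by rw [huv f, hRR]; simp) x h1 h3.le
          h2 (hRR ▸ h3.le) h4
        exact h3.ne this.symm }
  have hfin := A.card_le W (fun e => ⟨hW e e.2 _ (by
      show Lf e ∈ (e : Sym2 V); rw [huv e]; simp), hW e e.2 _ (by
      show Rf e ∈ (e : Sym2 V); rw [huv e]; simp)⟩) t (by
    intro U hU
    obtain ⟨e', he', f', hf', hne, hnd⟩ := ht (U.map (Function.Embedding.subtype _))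
      (by
        intro e he
        obtain ⟨e1, _, rfl⟩ := Finset.mem_map.1 he
        exact hT e1.2) (by rw [Finset.card_map, hU])
    obtain ⟨e, he, rfl⟩ := Finset.mem_map.1 he'
    obtain ⟨f, hf, rfl⟩ := Finset.mem_map.1 hf'
    have hef : e ≠ f := fun h => hne (by rw [h])
    refine ⟨e, he, f, hf, hef, ?_⟩
    rw [Set.not_disjoint_iff] at hnd
    obtain ⟨z, hz1, hz2⟩ := hnd
    have hz1' : z ∈ arc (e : Sym2 V) := hz1
    have hz2' : z ∈ arc (f : Sym2 V) := hz2
    rw [harc e] at hz1'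
    rw [harc f] at hz2'
    obtain ⟨s, hs, hs'⟩ := hz1'
    obtain ⟨s', hs1, hs1'⟩ := hz2'
    have e1 : z = O + (ρ e s : ℂ) * Complex.exp (((s - sh e : ℝ) : ℂ) * Complex.I) := by
      rw [← hs', ← hper e (s - sh e), sub_add_cancel]
    have e2 : z = O + (ρ f s' : ℂ) * Complex.exp (((s' - sh f : ℝ) : ℂ) * Complex.I) := by
      rw [← hs1', ← hper f (s' - sh f), sub_add_cancel]
    have g1 := hsh1 e
    have g2 := hsh2 e
    have g3 := hsh1 f
    have g4 := hsh2 f
    have hp := polar_unique (O := O) (hpos e s hs) (hpos f s' hs1) (by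
      rw [abs_lt]; constructor <;> linarith [hs.1, hs.2, hs1.1, hs1.2]) (e1.symm.trans e2)
    refine ⟨s - sh e, ?_, ?_, ?_, ?_, ?_⟩
    · show X (Lf e) ≤ s - sh e
      rw [hXL]; linarith [hs.1]
    · show s - sh e ≤ X (Rf e)
      rw [hXR]; linarith [hs.2]
    · show X (Lf f) ≤ s - sh e
      rw [hXL, hp.1]; linarith [hs1.1]
    · show s - sh e ≤ X (Rf f)
      rw [hXR, hp.1]; linarith [hs1.2]
    · show ρ e (s - sh e + sh e) = ρ f (s - sh e + sh f)
      rw [hp.1, sub_add_cancel, ← hp.1, sub_add_cancel]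
      exact hp.2)
  simpa using hfin

end Pool.Agent.CMono
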