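import Mathlib

/-!
# Families of x-monotone curves without `t` pairwise disjoint members

`Str ι V`: curves `e` over `[X (L e), X (R e)]`, graphs of `y e`; the ends are vertices; two curves
with the same left end (or the same right end) have no other common point.  If among any `t` curves
two meet, there are at most `(t-1)^4 * 2 |W|` curves, `W` a set of vertices containing all ends.
-/

set_option autoImplicit false

namespace Pool.Agent.CMono

open Set

/-- x-monotone curves with ends at vertices. -/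
structure Str (ι V : Type) where
  L : ι → V
  R : ι → V
  X : V → ℝ
  H : V → ℝ
  y : ι → ℝ → ℝ
  lt : ∀ e, X (L e) < X (R e)
  cont : ∀ e, ContinuousOn (y e) (Icc (X (L e)) (X (R e)))
  yL : ∀ e, y e (X (L e)) = H (L e)
  yR : ∀ e, y e (X (R e)) = H (R e)
  adjL : ∀ e f, e ≠ f → L e = L f → ∀ x, x ≤ X (R e) → x ≤ X (R f) → X (L e) < x →
    y e x ≠ y f x
  adjR : ∀ e f, e ≠ f → R e = R f → ∀ x, X (L e) ≤ x → X (L f) ≤ x → x < X (R e) →
    y e x ≠ y f x

variable {ι V : Type} (A : Str ι V)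

/-- The curves have a common point. -/
def Str.Meet (e f : ι) : Prop :=
  ∃ x, A.X (A.L e) ≤ x ∧ x ≤ A.X (A.R e) ∧ A.X (A.L f) ≤ x ∧ x ≤ A.X (A.R f) ∧ A.y e x = A.y f x

/-- `e` is below `f` wherever both are defined. -/
def Str.Bel (e f : ι) : Prop :=
  ∀ x, A.X (A.L e) ≤ x → x ≤ A.X (A.R e) → A.X (A.L f) ≤ x → x ≤ A.X (A.R f) → A.y e x < A.y f x

theorem Str.Bel.not_meet {A : Str ι V} {e f : ι} (h : A.Bel e f) : ¬ A.Meet e f := by
  rintro ⟨x, h1, h2, h3, h4, h5⟩
  exact (h x h1 h2 h3 h4).ne h5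

theorem Str.Bel.not_meet' {A : Str ι V} {e f : ι} (h : A.Bel f e) : ¬ A.Meet e f := by
  rintro ⟨x, h1, h2, h3, h4, h5⟩
  exact (h x h3 h4 h1 h2).ne h5.symm

theorem Str.tri {e f : ι} (h : ¬ A.Meet e f) : A.Bel e f ∨ A.Bel f e := by
  by_contra hc
  push Not at hc
  obtain ⟨h1, h2⟩ := hc
  unfold Str.Bel at h1 h2
  push Not at h1 h2
  obtain ⟨x, a1, a2, a3, a4, a5⟩ := h1
  obtain ⟨z, b1, b2, b3, b4, b5⟩ := h2
  have hcon : IsPreconnected (Icc (max (A.X (A.L e)) (A.X (A.L f)))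
      (min (A.X (A.R e)) (A.X (A.R f)))) := isPreconnected_Icc
  have c1 : ContinuousOn (A.y e) (Icc (max (A.X (A.L e)) (A.X (A.L f)))
      (min (A.X (A.R e)) (A.X (A.R f)))) :=
    (A.cont e).mono (Icc_subset_Icc (le_max_left _ _) (min_le_left _ _))
  have c2 : ContinuousOn (A.y f) (Icc (max (A.X (A.L e)) (A.X (A.L f)))
      (min (A.X (A.R e)) (A.X (A.R f)))) :=
    (A.cont f).mono (Icc_subset_Icc (le_max_right _ _) (min_le_right _ _))
  obtain ⟨w, hw, hw'⟩ := hcon.intermediate_value₂ (a := z) (b := x)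
    ⟨max_le b3 b1, le_min b4 b2⟩ ⟨max_le a1 a3, le_min a2 a4⟩ c1 c2 b5 a5
  exact h ⟨w, (le_max_left _ _).trans hw.1, hw.2.trans (min_le_left _ _),
    (le_max_right _ _).trans hw.1, hw.2.trans (min_le_right _ _), hw'⟩

/-- Mirsky: a colouring of a strict order without chains of `t` elements. -/
theorem exists_color [Finite ι] (P : ι → ι → Prop) (irr : ∀ e, ¬ P e e)
    (tr : ∀ e f g, P e f → P f g → P e g) (t : ℕ)
    (h : ∀ S : Finset ι, (∀ e ∈ S, ∀ f ∈ S, e ≠ f → P e f ∨ P f e) → S.card < t) :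
    ∃ c : ι → ℕ, (∀ e, c e < t - 1) ∧ ∀ e f, P e f → c e < c f := by
  classical
  have := Fintype.ofFinite ι
  let Q : ι → Finset (Finset ι) := fun e => Finset.univ.filter fun S =>
    (∀ a ∈ S, P a e) ∧ ∀ a ∈ S, ∀ b ∈ S, a ≠ b → P a b ∨ P b a
  have hins : ∀ e, ∀ S ∈ Q e, e ∉ S ∧
      ∀ a ∈ insert e S, ∀ b ∈ insert e S, a ≠ b → P a b ∨ P b a := by
    intro e S hS
    obtain ⟨h1, h2⟩ := (Finset.mem_filter.1 hS).2
    refine ⟨fun he => irr e (h1 e he), ?_⟩
    intro a ha b hb hab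
    rcases Finset.mem_insert.1 ha with rfl | ha' <;> rcases Finset.mem_insert.1 hb with rfl | hb'
    · exact absurd rfl hab
    · exact Or.inr (h1 b hb')
    · exact Or.inl (h1 a ha')
    · exact h2 a ha' b hb' hab
  have hne : ∀ e, (Q e).Nonempty := fun e => ⟨∅, by simp [Q]⟩
  refine ⟨fun e => (Q e).sup Finset.card, fun e => ?_, fun e f hef => ?_⟩
  · obtain ⟨S, hS, hS'⟩ := Finset.exists_mem_eq_sup (Q e) (hne e) Finset.card
    show (Q e).sup Finset.card < t - 1
    rw [hS']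
    obtain ⟨h1, h2⟩ := hins e S hS
    have := h _ h2
    rw [Finset.card_insert_of_notMem h1] at this
    omega
  · obtain ⟨S, hS, hS'⟩ := Finset.exists_mem_eq_sup (Q e) (hne e) Finset.card
    show (Q e).sup Finset.card < (Q f).sup Finset.card
    rw [hS']
    obtain ⟨h1, h2⟩ := hins e S hS
    have hm : insert e S ∈ Q f := by
      refine Finset.mem_filter.2 ⟨Finset.mem_univ _, ?_, h2⟩
      intro a ha
      rcases Finset.mem_insert.1 ha with rfl | ha'
      · exact hef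
      · exact tr a e f ((Finset.mem_filter.1 hS).2.1 a ha') hef
    have := Finset.le_sup (f := Finset.card) hm
    rw [Finset.card_insert_of_notMem h1] at this
    omega

/-- A pairwise meeting family has at most two curves per vertex. -/
theorem Str.meeting_card [DecidableEq V] (W : Finset V) (T : Finset ι)
    (hW : ∀ e ∈ T, A.L e ∈ W ∧ A.R e ∈ W) (hT : ∀ e ∈ T, ∀ f ∈ T, e ≠ f → A.Meet e f) :
    T.card ≤ 2 * W.card := by
  classical
  -- `e` is below `f` at the common left end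
  let U : ι → ι → Prop := fun e f => A.L e = A.L f ∧
    ∀ x, x ≤ A.X (A.R e) → x ≤ A.X (A.R f) → A.X (A.L e) < x → A.y e x < A.y f x
  -- `g` is below `e` at the common right end
  let D : ι → ι → Prop := fun e g => A.R e = A.R g ∧
    ∀ x, A.X (A.L e) ≤ x → A.X (A.L g) ≤ x → x < A.X (A.R e) → A.y g x < A.y e x
  have hU : ∀ e f, e ≠ f → A.L e = A.L f → U e f ∨ U f e := by
    intro e f hne hL
    by_contra hc
    push Not at hc
    obtain ⟨h1, h2⟩ := hc
    have h1' : ¬ ∀ x, x ≤ A.X (A.R e) → x ≤ A.X (A.R f) → A.X (A.L e) < x →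
        A.y e x < A.y f x := fun h => h1 ⟨hL, h⟩
    have h2' : ¬ ∀ x, x ≤ A.X (A.R f) → x ≤ A.X (A.R e) → A.X (A.L f) < x →
        A.y f x < A.y e x := fun h => h2 ⟨hL.symm, h⟩
    push Not at h1' h2'
    obtain ⟨x, a1, a2, a3, a4⟩ := h1'
    obtain ⟨z, b1, b2, b3, b4⟩ := h2'
    have hcon : IsPreconnected (Ioc (A.X (A.L e)) (min (A.X (A.R e)) (A.X (A.R f)))) :=
      isPreconnected_Ioc
    have c1 : ContinuousOn (A.y e) (Ioc (A.X (A.L e)) (min (A.X (A.R e)) (A.X (A.R f)))) :=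
      (A.cont e).mono fun w hw => ⟨hw.1.le, hw.2.trans (min_le_left _ _)⟩
    have c2 : ContinuousOn (A.y f) (Ioc (A.X (A.L e)) (min (A.X (A.R e)) (A.X (A.R f)))) :=
      (A.cont f).mono fun w hw => ⟨hL ▸ hw.1.le, hw.2.trans (min_le_right _ _)⟩
    obtain ⟨w, hw, hw'⟩ := hcon.intermediate_value₂ (a := z) (b := x)
      ⟨hL ▸ b3, le_min b2 b1⟩ ⟨a3, le_min a1 a2⟩ c1 c2 b4 a4
    exact A.adjL e f hne hL w (hw.2.trans (min_le_left _ _)) (hw.2.trans (min_le_right _ _))
      hw.1 hw'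
  have hD : ∀ e f, e ≠ f → A.R e = A.R f → D e f ∨ D f e := by
    intro e f hne hR
    by_contra hc
    push Not at hc
    obtain ⟨h1, h2⟩ := hc
    have h1' : ¬ ∀ x, A.X (A.L e) ≤ x → A.X (A.L f) ≤ x → x < A.X (A.R e) →
        A.y f x < A.y e x := fun h => h1 ⟨hR, h⟩
    have h2' : ¬ ∀ x, A.X (A.L f) ≤ x → A.X (A.L e) ≤ x → x < A.X (A.R f) →
        A.y e x < A.y f x := fun h => h2 ⟨hR.symm, h⟩
    push Not at h1' h2'
    obtain ⟨x, a1, a2, a3, a4⟩ := h1'
    obtain ⟨z, b1, b2, b3, b4⟩ := h2'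
    have hcon : IsPreconnected (Ico (max (A.X (A.L e)) (A.X (A.L f))) (A.X (A.R e))) :=
      isPreconnected_Ico
    have c1 : ContinuousOn (A.y e) (Ico (max (A.X (A.L e)) (A.X (A.L f))) (A.X (A.R e))) :=
      (A.cont e).mono fun w hw => ⟨(le_max_left _ _).trans hw.1, hw.2.le⟩
    have c2 : ContinuousOn (A.y f) (Ico (max (A.X (A.L e)) (A.X (A.L f))) (A.X (A.R e))) :=
      (A.cont f).mono fun w hw => ⟨(le_max_right _ _).trans hw.1, hR ▸ hw.2.le⟩
    obtain ⟨w, hw, hw'⟩ := hcon.intermediate_value₂ (a := x) (b := z)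
      ⟨max_le a1 a2, a3⟩ ⟨max_le b2 b1, hR ▸ b3⟩ c1 c2 a4 b4
    exact A.adjR e f hne hR w ((le_max_left _ _).trans hw.1) ((le_max_right _ _).trans hw.1)
      hw.2 hw'
  have key : ∀ e ∈ T, ∀ f ∈ T, ∀ g ∈ T, U e f → D e g → False := by
    intro e he f hf g hg hef heg
    have hm : A.Meet f g := by
      by_cases hfg : f = g
      · subst hfg
        exact ⟨A.X (A.L f), le_rfl, (A.lt f).le, le_rfl, (A.lt f).le, rfl⟩
      · exact hT f hf g hg hfg
    obtain ⟨x, h1, h2, h3, h4, h5⟩ := hm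
    obtain ⟨hL, u⟩ := hef
    obtain ⟨hR, d⟩ := heg
    have x1 : A.X (A.L e) ≤ x := hL ▸ h1
    have x2 : x ≤ A.X (A.R e) := hR ▸ h4
    have i1 : A.y e x ≤ A.y f x := by
      rcases x1.eq_or_lt with hx | hx
      · rw [← hx, A.yL e]
        conv_rhs => rw [hL, A.yL f]
        rw [hL]
      · exact (u x x2 h2 hx).le
    have i2 : A.y g x ≤ A.y e x := by
      rcases x2.eq_or_lt with hx | hx
      · rw [hx, A.yR e]
        conv_lhs => rw [hR, A.yR g]
        rw [hR]
      · exact (d x x1 h3 hx).le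
    rcases x1.eq_or_lt with hx | hx
    · have hx' : x < A.X (A.R e) := hx ▸ A.lt e
      have := d x x1 h3 hx'
      linarith
    · have := u x x2 h2 hx
      linarith
  -- the map to `Bool × V`
  let φ : ι → Bool × V := fun e => if ∃ f ∈ T, U e f then (true, A.R e) else (false, A.L e)
  have hφ : ∀ e ∈ T, φ e ∈ (Finset.univ : Finset Bool) ×ˢ W := by
    intro e he
    simp only [φ]
    split_ifs
    · exact Finset.mem_product.2 ⟨Finset.mem_univ _, (hW e he).2⟩
    · exact Finset.mem_product.2 ⟨Finset.mem_univ _, (hW e he).1⟩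
  have hinj : Set.InjOn φ T := by
    intro e he g hg heg
    by_contra hne
    simp only [φ] at heg
    split_ifs at heg with p q q
    · obtain ⟨f, hf, hef⟩ := p
      obtain ⟨f', hf', hgf⟩ := q
      have hR : A.R e = A.R g := by simpa using heg
      rcases hD e g hne hR with hh | hh
      · exact key e he f hf g hg hef hh
      · exact key g hg f' hf' e he hgf hh
    · simp at heg
    · simp at heg
    · have hL : A.L e = A.L g := by simpa using heg
      rcases hU e g hne hL with hh | hh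
      · exact p ⟨g, hg, hh⟩
      · exact q ⟨e, he, hh⟩
  calc T.card ≤ ((Finset.univ : Finset Bool) ×ˢ W).card :=
        Finset.card_le_card_of_injOn φ hφ hinj
    _ = 2 * W.card := by simp

/-- Without `t` pairwise disjoint curves. -/
theorem Str.card_le [Fintype ι] [DecidableEq V] (W : Finset V)
    (hW : ∀ e, A.L e ∈ W ∧ A.R e ∈ W) (t : ℕ)
    (ht : ∀ T : Finset ι, T.card = t → ∃ e ∈ T, ∃ f ∈ T, e ≠ f ∧ A.Meet e f) :
    Fintype.card ι ≤ 2 * W.card * (t - 1) ^ 4 := by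
  classical
  -- no `t` pairwise disjoint curves
  have hno : ∀ S : Finset ι, (∀ e ∈ S, ∀ f ∈ S, e ≠ f → ¬ A.Meet e f) → S.card < t := by
    intro S hS
    by_contra hc
    push Not at hc
    obtain ⟨T, hTS, hT⟩ := Finset.exists_subset_card_eq hc
    obtain ⟨e, he, f, hf, hne, hm⟩ := ht T hT
    exact hS e (hTS he) f (hTS hf) hne hm
  let l : ι → ℝ := fun e => A.X (A.L e)
  let r : ι → ℝ := fun e => A.X (A.R e)
  have hP : ∀ P : ι → ι → Prop, (∀ e f, P e f → ¬ A.Meet e f ∧ ¬ A.Meet f e) →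
      (∀ e, ¬ P e e) → (∀ e f g, P e f → P f g → P e g) →
      ∃ c : ι → ℕ, (∀ e, c e < t - 1) ∧ ∀ e f, P e f → c e < c f := by
    intro P hP irr tr
    refine exists_color P irr tr t fun S hS => hno S ?_
    intro e he f hf hne
    rcases hS e he f hf hne with h | h
    · exact (hP e f h).1
    · exact (hP f e h).2
  have hself : ∀ e, ¬ A.Bel e e := fun e h =>
    lt_irrefl _ (h (A.X (A.L e)) le_rfl (A.lt e).le le_rfl (A.lt e).le)
  have hms : ∀ e f, A.Bel e f → ¬ A.Meet e f ∧ ¬ A.Meet f e := fun e f h =>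
    ⟨h.not_meet, h.not_meet'⟩
  obtain ⟨c1, c1b, c1m⟩ := hP (fun e f => l e < l f ∧ r e < r f ∧ A.Bel e f)
    (fun e f h => hms e f h.2.2) (fun e h => lt_irrefl _ h.1)
    (fun e f g h k => ⟨h.1.trans k.1, h.2.1.trans k.2.1, fun x a b c d =>
      (h.2.2 x a b (k.1.le.trans c) (b.trans h.2.1.le)).trans
        (k.2.2 x (k.1.le.trans c) (b.trans h.2.1.le) c d)⟩)
  obtain ⟨c2, c2b, c2m⟩ := hP (fun e f => l e < l f ∧ r e < r f ∧ A.Bel f e)
    (fun e f h => ⟨(hms f e h.2.2).2, (hms f e h.2.2).1⟩) (fun e h => lt_irrefl _ h.1)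
    (fun e f g h k => ⟨h.1.trans k.1, h.2.1.trans k.2.1, fun x a b c d =>
      (k.2.2 x a b (k.1.le.trans a) (d.trans h.2.1.le)).trans
        (h.2.2 x (k.1.le.trans a) (d.trans h.2.1.le) c d)⟩)
  obtain ⟨c3, c3b, c3m⟩ := hP (fun e f => l f ≤ l e ∧ r e ≤ r f ∧ A.Bel e f)
    (fun e f h => hms e f h.2.2) (fun e h => hself e h.2.2)
    (fun e f g h k => ⟨k.1.trans h.1, h.2.1.trans k.2.1, fun x a b c d =>
      (h.2.2 x a b (h.1.trans a) (b.trans h.2.1)).trans
        (k.2.2 x (h.1.trans a) (b.trans h.2.1) c d)⟩)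
  obtain ⟨c4, c4b, c4m⟩ := hP (fun e f => l f ≤ l e ∧ r e ≤ r f ∧ A.Bel f e)
    (fun e f h => ⟨(hms f e h.2.2).2, (hms f e h.2.2).1⟩) (fun e h => hself e h.2.2)
    (fun e f g h k => ⟨k.1.trans h.1, h.2.1.trans k.2.1, fun x a b c d =>
      (k.2.2 x a b (h.1.trans c) (d.trans h.2.1)).trans
        (h.2.2 x (h.1.trans c) (d.trans h.2.1) c d)⟩)
  let c : ι → (ℕ × ℕ) × (ℕ × ℕ) := fun e => ((c1 e, c2 e), (c3 e, c4 e))
  let K : Finset ((ℕ × ℕ) × (ℕ × ℕ)) :=
    (Finset.range (t - 1) ×ˢ Finset.range (t - 1)) ×ˢ (Finset.range (t - 1) ×ˢ Finset.range (t - 1))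
  have hK : K.card = (t - 1) ^ 4 := by
    simp only [K, Finset.card_product, Finset.card_range]
    ring
  have hmain := Finset.card_le_mul_card_image_of_maps_to (s := (Finset.univ : Finset ι)) (t := K)
    (f := c) (fun e _ => by simp [K, c, c1b e, c2b e, c3b e, c4b e]) (2 * W.card) (by
      intro b _
      refine A.meeting_card W _ (fun e _ => hW e) ?_
      intro e he f hf hne
      by_contra hm
      have he' := (Finset.mem_filter.1 he).2
      have hf' := (Finset.mem_filter.1 hf).2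
      have hcc : c e = c f := he'.trans hf'.symm
      simp only [c, Prod.mk.injEq] at hcc
      obtain ⟨⟨k1, k2⟩, k3, k4⟩ := hcc
      have hm' : ¬ A.Meet f e := fun ⟨x, p1, p2, p3, p4, p5⟩ => hm ⟨x, p3, p4, p1, p2, p5.symm⟩
      rcases lt_trichotomy (l e) (l f) with hl | hl | hl
      · rcases lt_or_ge (r e) (r f) with hr | hr
        · rcases A.tri hm with h | h
          · exact (c1m e f ⟨hl, hr, h⟩).ne k1
          · exact (c2m e f ⟨hl, hr, h⟩).ne k2
        · rcases A.tri hm with h | h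
          · exact (c4m f e ⟨hl.le, hr, h⟩).ne k4.symm
          · exact (c3m f e ⟨hl.le, hr, h⟩).ne k3.symm
      · rcases le_total (r e) (r f) with hr | hr
        · rcases A.tri hm with h | h
          · exact (c3m e f ⟨hl.ge, hr, h⟩).ne k3
          · exact (c4m e f ⟨hl.ge, hr, h⟩).ne k4
        · rcases A.tri hm with h | h
          · exact (c4m f e ⟨hl.le, hr, h⟩).ne k4.symm
          · exact (c3m f e ⟨hl.le, hr, h⟩).ne k3.symm
      · rcases lt_or_ge (r f) (r e) with hr | hr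
        · rcases A.tri hm with h | h
          · exact (c2m f e ⟨hl, hr, h⟩).ne k2.symm
          · exact (c1m f e ⟨hl, hr, h⟩).ne k1.symm
        · rcases A.tri hm with h | h
          · exact (c3m e f ⟨hl.le, hr, h⟩).ne k3
          · exact (c4m e f ⟨hl.le, hr, h⟩).ne k4)
  rw [Finset.card_univ] at hmain
  rw [hK] at hmain
  exact hmain

end Pool.Agent.CMono
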