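import Pool.Agent.Hhelper93.CMono.Ray

/-!
# Drawings with c-monotone edges: the bound
-/

set_option autoImplicit false

namespace Pool.Agent.CMono

open Set

variable {V : Type} {G : SimpleGraph V} {O : ℂ} {pos : V → ℂ} {arc : Sym2 V → Set ℂ}
  {lo hi : Sym2 V → ℝ}

/-- Two different numbers below `2^K` are separated at one binary level. -/
theorem level_exists {K i j : ℕ} (hij : i < j) (hj : j < 2 ^ K) :
    ∃ k < K, ∃ B : ℕ, i / 2 ^ (k + 1) = B ∧ j / 2 ^ (k + 1) = B ∧ i < (2 * B + 1) * 2 ^ k ∧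
      (2 * B + 1) * 2 ^ k ≤ j := by
  have hex : ∃ m, i / 2 ^ m = j / 2 ^ m :=
    ⟨K, by rw [Nat.div_eq_of_lt hj, Nat.div_eq_of_lt (hij.trans hj)]⟩
  classical
  have h0 : Nat.find hex ≠ 0 := by
    intro h
    have := Nat.find_spec hex
    rw [h] at this
    simp only [pow_zero, Nat.div_one] at this
    omega
  obtain ⟨k, hk⟩ := Nat.exists_eq_succ_of_ne_zero h0
  have hs := Nat.find_spec hex
  rw [hk] at hs
  have hn : ¬ i / 2 ^ k = j / 2 ^ k := Nat.find_min hex (by omega)
  have hKk : Nat.find hex ≤ K := Nat.find_min' hex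
    (by rw [Nat.div_eq_of_lt hj, Nat.div_eq_of_lt (hij.trans hj)])
  have hle : i / 2 ^ k ≤ j / 2 ^ k := Nat.div_le_div_right hij.le
  have hi2 : i / 2 ^ k / 2 = i / 2 ^ (k + 1) := by rw [Nat.div_div_eq_div_mul, pow_succ]
  have hj2 : j / 2 ^ k / 2 = j / 2 ^ (k + 1) := by rw [Nat.div_div_eq_div_mul, pow_succ]
  have hs' : i / 2 ^ (k + 1) = j / 2 ^ (k + 1) := hs
  have hpos : 0 < 2 ^ k := by positivity
  refine ⟨k, by omega, i / 2 ^ (k + 1), rfl, hs'.symm, ?_, ?_⟩
  · rw [← Nat.div_lt_iff_lt_mul hpos]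
    omega
  · rw [← Nat.le_div_iff_mul_le hpos]
    omega

/-- The bound with `K` levels. -/
theorem main_bound [Fintype V] (D : CMonotone G O pos arc lo hi) (t : ℕ)
    (ht : ∀ T : Finset (Sym2 V), (T : Set (Sym2 V)) ⊆ G.edgeSet → T.card = t →
      ∃ e ∈ T, ∃ f ∈ T, e ≠ f ∧ ¬ Disjoint (arc e) (arc f))
    (K : ℕ) (hK : Fintype.card V ≤ 2 ^ K ∨
      ∀ e ∈ G.edgeSet, hi e - lo e < 2 * Real.pi - 2 * Real.pi / 2 ^ K) :
    G.edgeSet.ncard ≤ 2 * (t - 1) ^ 4 * Fintype.card V * (K + 1) := by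
  classical
  set n := Fintype.card V with hn
  have hfinE : G.edgeSet.Finite := Set.toFinite _
  set E : Finset (Sym2 V) := hfinE.toFinset with hE
  have hEm : ∀ e, e ∈ E ↔ e ∈ G.edgeSet := fun e => hfinE.mem_toFinset
  have hEc : G.edgeSet.ncard = E.card := by rw [Set.ncard_eq_toFinset_card _ hfinE]
  have hpi := Real.pi_pos
  -- a base ray which contains no end angle
  obtain ⟨φ, hφ⟩ : ∃ φ : ℝ, ∀ e ∈ E, ∀ k : ℤ, φ + 2 * Real.pi * k ≠ lo e ∧
      φ + 2 * Real.pi * k ≠ hi e := by
    have hcount : (⋃ e ∈ E, ⋃ k : ℤ, ({lo e - 2 * Real.pi * k, hi e - 2 * Real.pi * k} :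
        Set ℝ)).Countable := by
      refine Set.Countable.biUnion (Finset.countable_toSet E) fun e _ => ?_
      exact Set.countable_iUnion fun k => (Set.toFinite _).countable
    obtain ⟨φ, hφ⟩ := (hcount.dense_compl ℝ).nonempty
    refine ⟨φ, fun e he k => ⟨fun h => hφ ?_, fun h => hφ ?_⟩⟩
    · simp only [mem_iUnion]
      exact ⟨e, he, k, by left; linarith⟩
    · simp only [mem_iUnion]
      exact ⟨e, he, k, by right; simp only [mem_singleton_iff]; linarith⟩
  let T0 : Finset (Sym2 V) := E.filter fun e => Av lo hi φ e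
  let T1 : Finset (Sym2 V) := E.filter fun e => ¬ Av lo hi φ e
  have hsplit : E.card = T0.card + T1.card :=
    (Finset.card_filter_add_card_filter_not (s := E) (fun e => Av lo hi φ e)).symm
  have hT0 : T0.card ≤ 2 * n * (t - 1) ^ 4 := by
    have := ray_card D t ht φ T0 (fun e he => (hEm e).1 (Finset.mem_filter.1 he).1)
      Finset.univ (fun _ _ _ _ => Finset.mem_univ _) (fun e he => (Finset.mem_filter.1 he).2)
    rwa [Finset.card_univ] at this
  -- positions of the vertices
  let X : V → ℝ := fun w => if h : ∃ x, φ < x ∧ x < φ + 2 * Real.pi ∧ ∃ r : ℝ, 0 < r ∧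
    pos w = O + (r : ℂ) * Complex.exp (x * Complex.I) then Classical.choose h else 0
  have hXspec : ∀ (w : V) (x r : ℝ), φ < x → x < φ + 2 * Real.pi → 0 < r →
      pos w = O + (r : ℂ) * Complex.exp (x * Complex.I) → X w = x := by
    intro w x r h1 h2 h3 h4
    have h : ∃ x, φ < x ∧ x < φ + 2 * Real.pi ∧ ∃ r : ℝ, 0 < r ∧
        pos w = O + (r : ℂ) * Complex.exp (x * Complex.I) := ⟨x, h1, h2, r, h3, h4⟩
    have hX : X w = Classical.choose h := by simp only [X]; rw [dif_pos h]
    obtain ⟨g1, g2, r', g3, g4⟩ := Classical.choose_spec h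
    rw [hX]
    refine (polar_unique (O := O) g3 h3 ?_ (g4.symm.trans h4)).1
    rw [abs_lt]; constructor <;> linarith
  -- the edges of `T1`: two vertices `u`, `v` with `X v < X u`, and rays between them are avoided
  have hedge : ∀ e ∈ T1, ∃ u v : V, e = s(u, v) ∧ X v < X u ∧
      X u - X v = 2 * Real.pi - (hi e - lo e) ∧ φ < X v ∧ X u < φ + 2 * Real.pi ∧
      ∀ ψ, X v < ψ → ψ < X u → Av lo hi ψ e := by
    intro e he
    obtain ⟨heE, hnav⟩ := Finset.mem_filter.1 he
    have heG := (hEm e).1 heE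
    obtain ⟨u, v, huv, ρ, h1, h2, h3, h4, h5⟩ := D.isArc e heG
    obtain ⟨hs1, hs2⟩ := D.span e heG
    -- the turn of `lo e`
    obtain ⟨k, hk1, hk2⟩ : ∃ k : ℤ, φ + 2 * Real.pi * (k - 1) ≤ lo e ∧
        lo e < φ + 2 * Real.pi * k := by
      refine ⟨⌊(lo e - φ) / (2 * Real.pi)⌋ + 1, ?_, ?_⟩
      · have := Int.floor_le ((lo e - φ) / (2 * Real.pi))
        rw [le_div_iff₀ (by positivity)] at this
        push_cast
        linarith
      · have := Int.lt_floor_add_one ((lo e - φ) / (2 * Real.pi))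
        rw [div_lt_iff₀ (by positivity)] at this
        push_cast
        linarith
    have hk1' : φ + 2 * Real.pi * (k - 1) < lo e := by
      refine lt_of_le_of_ne hk1 fun h => (hφ e heE (k - 1)).1 ?_
      push_cast
      exact h
    have hk3 : φ + 2 * Real.pi * k < hi e := by
      rcases lt_trichotomy (φ + 2 * Real.pi * k) (hi e) with h | h | h
      · exact h
      · exact absurd h (hφ e heE k).2
      · exact absurd ⟨k, h, by linarith⟩ hnav
    have hper : ∀ (x : ℝ) (m : ℤ), Complex.exp (((x - 2 * Real.pi * m : ℝ) : ℂ) * Complex.I) =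
        Complex.exp ((x : ℂ) * Complex.I) := by
      intro x m
      rw [Complex.exp_eq_exp_iff_exists_int]
      refine ⟨-m, ?_⟩
      push_cast
      ring
    have hXu : X u = lo e - 2 * Real.pi * ((k - 1 : ℤ) : ℝ) := by
      refine hXspec _ _ (ρ (lo e)) (by push_cast; linarith) (by push_cast; linarith)
        (h2 _ ⟨le_rfl, hs1.le⟩) ?_
      rw [h4, hper]
    have hXv : X v = hi e - 2 * Real.pi * (k : ℝ) := by
      refine hXspec _ _ (ρ (hi e)) (by linarith) (by linarith)
        (h2 _ ⟨hs1.le, le_rfl⟩) ?_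
      rw [h5, hper]
    refine ⟨u, v, huv, ?_, ?_, ?_, ?_, ?_⟩
    · rw [hXu, hXv]; push_cast; linarith
    · rw [hXu, hXv]; push_cast; ring
    · rw [hXv]; linarith
    · rw [hXu]; push_cast; linarith
    · intro ψ a b
      rw [hXv] at a
      rw [hXu] at b
      push_cast at b
      exact ⟨k, by linarith, by linarith⟩
  -- ranks
  obtain ⟨rk, hrk, hrk', hrkn⟩ : ∃ rk : V → ℕ, (∀ e ∈ T1, ∀ u v, e = s(u, v) → X v < X u →
      X u - X v = 2 * Real.pi - (hi e - lo e) → φ < X v → X u < φ + 2 * Real.pi →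
      rk v < rk u) ∧
      (∀ u v, rk v < rk u → X v < X u) ∧ (∀ v, rk v < 2 ^ K) := by
    rcases hK with hn2 | hgap
    · let rk : V → ℕ := fun w => ((Finset.univ.image X).filter fun x => x < X w).card
      refine ⟨rk, fun e _ u v _ h _ _ _ => ?_, fun u v h => ?_, fun v => ?_⟩
      · refine Finset.card_lt_card ⟨?_, fun hc => ?_⟩
        · intro x hx
          obtain ⟨a, b⟩ := Finset.mem_filter.1 hx
          exact Finset.mem_filter.2 ⟨a, b.trans h⟩
        · have : X v ∈ (Finset.univ.image X).filter fun x => x < X v :=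
            hc (Finset.mem_filter.2 ⟨Finset.mem_image_of_mem _ (Finset.mem_univ _), h⟩)
          exact lt_irrefl _ (Finset.mem_filter.1 this).2
      · by_contra hc
        push Not at hc
        refine absurd h (not_lt.2 (Finset.card_le_card ?_))
        intro x hx
        obtain ⟨a, b⟩ := Finset.mem_filter.1 hx
        exact Finset.mem_filter.2 ⟨a, b.trans_le hc⟩
      · calc rk v < (Finset.univ.image X).card := by
              refine Finset.card_lt_card ⟨Finset.filter_subset _ _, fun hc => ?_⟩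
              have := hc (Finset.mem_image_of_mem X (Finset.mem_univ v))
              exact lt_irrefl _ (Finset.mem_filter.1 this).2
          _ ≤ (Finset.univ : Finset V).card := Finset.card_image_le
          _ = n := Finset.card_univ
          _ ≤ 2 ^ K := hn2
    · have hP : (0 : ℝ) < 2 ^ K := by positivity
      have hpi2 : (0 : ℝ) < 2 * Real.pi := by positivity
      have hP' : 0 < 2 ^ K := by positivity
      let rk : V → ℕ := fun w => min (2 ^ K - 1) ⌊(X w - φ) * 2 ^ K / (2 * Real.pi)⌋₊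
      refine ⟨rk, fun e he u v _ _ hgp hv hu => ?_, fun u v h => ?_, fun v => ?_⟩
      · have h1 := hgap e ((hEm e).1 (Finset.mem_filter.1 he).1)
        have h2 : 2 * Real.pi / 2 ^ K < X u - X v := by linarith
        rw [div_lt_iff₀ hP] at h2
        have h3 : (X v - φ) * 2 ^ K / (2 * Real.pi) + 1 ≤ (X u - φ) * 2 ^ K / (2 * Real.pi) := by
          rw [← sub_nonneg]
          have : (X u - φ) * 2 ^ K / (2 * Real.pi) - ((X v - φ) * 2 ^ K / (2 * Real.pi) + 1) =
              ((X u - X v) * 2 ^ K - 2 * Real.pi) / (2 * Real.pi) := by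
            field_simp
            ring
          rw [this]
          exact div_nonneg (by linarith) hpi2.le
        have h4 : (0 : ℝ) ≤ (X v - φ) * 2 ^ K / (2 * Real.pi) :=
          div_nonneg (mul_nonneg (by linarith) hP.le) hpi2.le
        have h5 : (X u - φ) * 2 ^ K / (2 * Real.pi) < 2 ^ K := by
          rw [div_lt_iff₀ hpi2]
          nlinarith
        have h6 : ⌊(X v - φ) * 2 ^ K / (2 * Real.pi)⌋₊ + 1 ≤
            ⌊(X u - φ) * 2 ^ K / (2 * Real.pi)⌋₊ := by
          rw [← Nat.floor_add_one h4]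
          exact Nat.floor_le_floor h3
        have h7 : ⌊(X u - φ) * 2 ^ K / (2 * Real.pi)⌋₊ < 2 ^ K := by
          rw [Nat.floor_lt (by linarith)]
          push_cast
          exact h5
        calc rk v ≤ ⌊(X v - φ) * 2 ^ K / (2 * Real.pi)⌋₊ := min_le_right _ _
          _ < ⌊(X u - φ) * 2 ^ K / (2 * Real.pi)⌋₊ := by omega
          _ = rk u := (min_eq_right (by omega)).symm
      · by_contra hc
        push Not at hc
        refine absurd h (not_lt.2 (min_le_min le_rfl (Nat.floor_le_floor ?_)))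
        exact div_le_div_of_nonneg_right (mul_le_mul_of_nonneg_right (by linarith) hP.le) hpi2.le
      · exact (min_le_left _ _).trans_lt (by omega)
  -- classes
  have hcls : ∀ e ∈ T1, ∃ q : ℕ × ℕ, q.1 < K ∧ q.2 < 2 ^ K ∧
      (∀ w ∈ e, rk w / 2 ^ (q.1 + 1) = q.2) ∧
      ∀ ψ, (∀ w, rk w < (2 * q.2 + 1) * 2 ^ q.1 → X w < ψ) →
        (∀ w, (2 * q.2 + 1) * 2 ^ q.1 ≤ rk w → ψ < X w) → Av lo hi ψ e := by
    intro e he
    obtain ⟨u, v, huv, hlt, hgp, hφv, hφu, hav⟩ := hedge e he
    obtain ⟨k, hkK, B, h1, h2, h3, h4⟩ := level_exists (hrk e he u v huv hlt hgp hφv hφu) (hrkn u)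
    refine ⟨(k, B), hkK, ?_, ?_, ?_⟩
    · calc B = rk v / 2 ^ (k + 1) := h1.symm
        _ ≤ rk v := Nat.div_le_self _ _
        _ < 2 ^ K := hrkn v
    · intro w hw
      rw [huv] at hw
      rcases Sym2.mem_iff.1 hw with rfl | rfl
      · exact h2
      · exact h1
    · intro ψ hψ1 hψ2
      exact hav ψ (hψ1 v h3) (hψ2 u h4)
  let q : Sym2 V → ℕ × ℕ := fun e => if h : e ∈ T1 then Classical.choose (hcls e h) else (0, 0)
  have hq : ∀ e (h : e ∈ T1), (q e).1 < K ∧ (q e).2 < 2 ^ K ∧
      (∀ w ∈ e, rk w / 2 ^ ((q e).1 + 1) = (q e).2) ∧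
      ∀ ψ, (∀ w, rk w < (2 * (q e).2 + 1) * 2 ^ (q e).1 → X w < ψ) →
        (∀ w, (2 * (q e).2 + 1) * 2 ^ (q e).1 ≤ rk w → ψ < X w) → Av lo hi ψ e := by
    intro e h
    have : q e = Classical.choose (hcls e h) := by simp only [q]; rw [dif_pos h]
    rw [this]
    exact Classical.choose_spec (hcls e h)
  have hT1 : T1.card ≤ K * (2 * n * (t - 1) ^ 4) := by
    have hmaps : ∀ e ∈ T1, q e ∈ Finset.range K ×ˢ Finset.range (2 ^ K) := fun e he =>
      Finset.mem_product.2 ⟨Finset.mem_range.2 (hq e he).1, Finset.mem_range.2 (hq e he).2.1⟩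
    rw [Finset.card_eq_sum_card_fiberwise (f := q) (t := Finset.range K ×ˢ Finset.range (2 ^ K)) hmaps,
      Finset.sum_product]
    have hfib : ∀ k B, (T1.filter fun e => q e = (k, B)).card ≤
        2 * (Finset.univ.filter fun w => rk w / 2 ^ (k + 1) = B).card * (t - 1) ^ 4 := by
      intro k B
      -- the ray
      obtain ⟨ψ, hψ1, hψ2⟩ := Order.exists_between_finsets
        ((Finset.univ.filter fun w => rk w < (2 * B + 1) * 2 ^ k).image X)
        ((Finset.univ.filter fun w => (2 * B + 1) * 2 ^ k ≤ rk w).image X) (by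
          intro x hx z hz
          obtain ⟨v, hv, rfl⟩ := Finset.mem_image.1 hx
          obtain ⟨u, hu, rfl⟩ := Finset.mem_image.1 hz
          exact hrk' u v ((Finset.mem_filter.1 hv).2.trans_le (Finset.mem_filter.1 hu).2))
      refine ray_card D t ht ψ _ ?_ _ ?_ ?_
      · intro e he
        exact (hEm e).1 (Finset.mem_filter.1 (Finset.mem_filter.1 he).1).1
      · intro e he w hw
        obtain ⟨he1, he2⟩ := Finset.mem_filter.1 he
        have := (hq e he1).2.2.1 w hw
        rw [he2] at this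
        exact Finset.mem_filter.2 ⟨Finset.mem_univ _, this⟩
      · intro e he
        obtain ⟨he1, he2⟩ := Finset.mem_filter.1 he
        have := (hq e he1).2.2.2 ψ
        rw [he2] at this
        refine this ?_ ?_
        · intro w hw
          exact hψ1 _ (Finset.mem_image_of_mem _ (Finset.mem_filter.2 ⟨Finset.mem_univ _, hw⟩))
        · intro w hw
          exact hψ2 _ (Finset.mem_image_of_mem _ (Finset.mem_filter.2 ⟨Finset.mem_univ _, hw⟩))
    have hlev : ∀ k, ∑ B ∈ Finset.range (2 ^ K),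
        (Finset.univ.filter fun w => rk w / 2 ^ (k + 1) = B).card = n := by
      intro k
      rw [← Finset.card_eq_sum_card_fiberwise (f := fun w => rk w / 2 ^ (k + 1))
        (s := (Finset.univ : Finset V)) (t := Finset.range (2 ^ K)) (fun w _ => by
          refine Finset.mem_coe.2 (Finset.mem_range.2 ?_)
          exact (Nat.div_le_self _ _).trans_lt (hrkn w))]
      exact Finset.card_univ
    calc ∑ k ∈ Finset.range K, ∑ B ∈ Finset.range (2 ^ K), (T1.filter fun e => q e = (k, B)).card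
        ≤ ∑ k ∈ Finset.range K, ∑ B ∈ Finset.range (2 ^ K),
          2 * (Finset.univ.filter fun w => rk w / 2 ^ (k + 1) = B).card * (t - 1) ^ 4 :=
          Finset.sum_le_sum fun k _ => Finset.sum_le_sum fun B _ => hfib k B
      _ = ∑ k ∈ Finset.range K, 2 * n * (t - 1) ^ 4 := by
          refine Finset.sum_congr rfl fun k _ => ?_
          rw [← Finset.sum_mul, ← Finset.mul_sum, hlev k]
      _ = K * (2 * n * (t - 1) ^ 4) := by simp
  rw [hEc, hsplit]
  calc T0.card + T1.card ≤ 2 * n * (t - 1) ^ 4 + K * (2 * n * (t - 1) ^ 4) := by omega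
    _ = 2 * (t - 1) ^ 4 * n * (K + 1) := by ring

end Pool.Agent.CMono
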